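import Pool.Agent.Helper49.IP.Main

/-!
# The permutations which need `m ^ m` vertices

Let `m ≥ 2`. For a permutation `π` of `{1, …, m}` the least order `g(π)` of a graph with the
independent set permutation `π` is `m ^ m` if and only if the entry `m - 1` of `π` precedes `m`
and is not preceded by `1`. In the other cases there are smaller graphs: about `7 / 9` of `m ^ m`
vertices are enough if `1`, `m - 1`, `m` occur in this order, and `m s ^ (m - 1)` vertices, with
`s` about `6 m / 7`, are enough if `m` precedes `m - 1`.

The lower bound comes from an entropy inequality for ordered maximum independent sets; the graphs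
are joins of disjoint unions of complete graphs of the same order, with suitable multiplicities.
-/

set_option autoImplicit false

open Pool.Agent.Helper49.IP

namespace Pool.Agent.Results.MP_f6f975_co.ExtremalPermutations

theorem result (m : ℕ) (hm : 2 ≤ m) (π : Equiv.Perm (Fin m)) :
    IsLeast (orders π) (minOrder π) ∧
    (minOrder π = m ^ m ↔ Before π (m - 1) m ∧ (m = 2 ∨ Before π (m - 1) 1)) ∧
    (Before π 1 (m - 1) → Before π (m - 1) m →
      ∀ c : ℕ, 9 * c ≤ 2 * m ^ 2 → minOrder π + c * m ^ (m - 2) ≤ m ^ m) ∧
    (Before π m (m - 1) →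
      ∀ s : ℕ, s ≤ m → s = m - 1 ∨ 6 * m ≤ 7 * s → minOrder π ≤ m * s ^ (m - 1)) := by
  obtain ⟨h1, h2, h3, h4, -⟩ := main m hm π
  refine ⟨h1, h2, fun h h' c hc => ?_, h4⟩
  have h5 := h3 h' h c hc
  have h6 : c * m ^ (m - 2) ≤ m ^ m := by
    calc c * m ^ (m - 2) ≤ m ^ 2 * m ^ (m - 2) := Nat.mul_le_mul_right _ (by omega)
      _ = m ^ m := by
        rw [← pow_add]
        congr 1
        omega
  omega

end Pool.Agent.Results.MP_f6f975_co.ExtremalPermutations
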