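import Pool.Agent.Helper34.TYP.Sorted

/-!
# A lower bound for every independent set permutation, and exact values

Every graph with the independent set permutation `π` of `{1, …, m}` gives real numbers
`N 1 ≥ … ≥ N m ≥ 1` such that the order of the graph is `m N 1` and the numbers `C(m, k) (N k) ^ k`
are weakly increasing along `π`. If `a < b` and `a` precedes `b`, this gives a lower bound for `N b`.
It is sharp for many permutations which sort the numbers `C(m, k) t ^ k`, where
`C(m, a) = C(m, b) t ^ (b - a)`; for example `t + 1` divides `m + 1` and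
`b = a + 1 = t (m + 1) / (t + 1)`.
-/

set_option autoImplicit false

open Pool.Agent.Helper49.IP

namespace Pool.Agent.Results.MP_f6f975_co.SortedValues

theorem result (m : ℕ) (hm : 1 ≤ m) (π : Equiv.Perm (Fin m)) :
    (∀ n ∈ orders π, ∃ N : ℕ → ℝ, (∀ a b : ℕ, 1 ≤ a → a ≤ b → b ≤ m → N b ≤ N a) ∧
      (∀ k : ℕ, 1 ≤ k → k ≤ m → 1 ≤ N k) ∧ (n : ℝ) = m * N 1 ∧
      (∀ k l : ℕ, Before π k l → (m.choose k : ℝ) * N k ^ k ≤ (m.choose l : ℝ) * N l ^ l)) ∧
    ∀ a b c : ℕ, a < b → Before π a b → 1 ≤ c → c ≤ b → c = 1 ∨ Before π c 1 →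
      (∀ n ∈ orders π, m.choose c ^ (b - a) * m.choose a ^ c ≤ n ^ (b - a) * m.choose b ^ c) ∧
      ∀ t : ℕ, 1 ≤ t → m.choose a = m.choose b * t ^ (b - a) → c ≤ t + 1 →
        c ≤ t * (m - c + 1) → (∀ k l : ℕ, Before π k l →
          m.choose (max k c) * t ^ max k c ≤ m.choose (max l c) * t ^ max l c) →
        IsLeast (orders π) (m.choose c * t ^ c) :=
  ⟨fun _ hn => Pool.Agent.Helper34.TYP.seq_of_orders hm hn, fun _ _ _ hab h hc hcb hc1 =>
    ⟨fun _ hn => Pool.Agent.Helper34.TYP.pair_bound hm hab h hc hcb hc1 hn,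
      fun _ ht htie hct hct' hT =>
        Pool.Agent.Helper34.TYP.exact_sorted ht hab h htie hc hcb hct hct' hc1 hT⟩⟩

end Pool.Agent.Results.MP_f6f975_co.SortedValues
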