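import Pool.Agent.Helper34.TYP.Typ

/-!
# The typical size of the least order realizing an independent set permutation

Let `g(π)` be the least order of a graph with the independent set permutation `π`, a permutation of
`{1, …, m}`. For all but a proportion `1 / (s + 1)! + 1 / (t + 2)` of the `m!` permutations,
`g(π)` is at least `C(m, s + t - 1) ((m - s + 1) / s) ^ (m - s - t + 1)`. In particular, for every
`ε > 0` there is a constant `C` such that `(m / C) ^ m ≤ g(π) ≤ m ^ m` for all but `ε m!`
permutations, for every `m`.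

The lower bound uses the Fisher-Ryan inequality: `(i_k / C(m, k)) ^ (1 / k)` does not increase with
`k` if the independence number is `m`. It is proved here by moving the weights of two adjacent
vertices until the support of the weights is independent, and Maclaurin's inequality.
-/

set_option autoImplicit false

open Pool.Agent.Helper49.IP

namespace Pool.Agent.Results.MP_f6f975_co.TypicalOrder

theorem result (m : ℕ) (hm : 2 ≤ m) :
    (∀ π : Equiv.Perm (Fin m), IsLeast (orders π) (minOrder π)) ∧
    (∀ s t : ℕ, 1 ≤ s → s + t + 1 ≤ m →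
      (1 - 1 / ((s + 1).factorial : ℝ) - 1 / ((t : ℝ) + 2)) * (m.factorial : ℝ) ≤
        ({π : Equiv.Perm (Fin m) | (m.choose (s + t - 1) : ℝ) *
          (((m : ℝ) - s + 1) / s) ^ (m - s - t + 1) ≤ minOrder π}.ncard : ℝ)) ∧
    (∀ s : ℕ, 1 ≤ s →
      (1 - 1 / ((s + 1).factorial : ℝ) - 1 / ((s : ℝ) + 2)) * (m.factorial : ℝ) ≤
        ({π : Equiv.Perm (Fin m) | ((m : ℝ) / (2 * s * 4 ^ s)) ^ m ≤ minOrder π ∧
          minOrder π ≤ m ^ m}.ncard : ℝ)) := by
  refine ⟨fun π => isLeast_minOrder hm, fun s t hs hst => ?_, fun s hs =>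
    Pool.Agent.Helper34.TYP.typical_pow hm hs⟩
  refine (Pool.Agent.Helper34.TYP.typical hs hst).trans ?_
  have h : {π : Equiv.Perm (Fin m) | ∀ n ∈ orders π, (m.choose (s + t - 1) : ℝ) *
      (((m : ℝ) - s + 1) / s) ^ (m - s - t + 1) ≤ n}.ncard ≤
      {π : Equiv.Perm (Fin m) | (m.choose (s + t - 1) : ℝ) *
        (((m : ℝ) - s + 1) / s) ^ (m - s - t + 1) ≤ minOrder π}.ncard := by
    refine Set.ncard_le_ncard ?_ (Set.toFinite _)
    intro π hπ
    exact hπ _ (isLeast_minOrder (π := π) hm).1
  exact_mod_cast h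

end Pool.Agent.Results.MP_f6f975_co.TypicalOrder
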